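import Mathlib

set_option autoImplicit false

namespace Pool.Agent.Results.MP_65c29d_pr.AllDimensions

open Classical in
/-- One step of simple random walk from `v`, applied to a function `f`: the average of `f` over the
neighbours of `v` (at a vertex without neighbours the walk stays where it is). -/
noncomputable def step {W : Type} (G : SimpleGraph W) (f : W → ℝ) (v : W) : ℝ :=
  if G.neighborSet v = ∅ then f v
  else (∑ᶠ w ∈ G.neighborSet v, f w) / ((G.neighborSet v).ncard : ℝ)

open Classical in
/-- The probability that simple random walk started at `v` is at `o` at one of the times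
`1, ..., n`, computed by conditioning on the first step. -/
noncomputable def visit {W : Type} (G : SimpleGraph W) (o : W) : ℕ → W → ℝ
  | 0, _ => 0
  | n + 1, v => step G (fun w => if w = o then 1 else visit G o n w) v

/-- Transience: for some vertex `o`, simple random walk started at `o` returns to `o` with
probability less than one. -/
def Transient {W : Type} (G : SimpleGraph W) : Prop :=
  ∃ o : W, ∃ c : ℝ, c < 1 ∧ ∀ n, visit G o n o ≤ c

/-- The vertices of `H` are represented by closed balls of `ℝ^d` with positive radii and pairwise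
disjoint interiors, and adjacent vertices have tangent balls. -/
def Packed (d : ℕ) {W : Type} (H : SimpleGraph W) : Prop :=
  ∃ (x : W → EuclideanSpace ℝ (Fin d)) (r : W → ℝ), (∀ v, 0 < r v) ∧
    (∀ u v, u ≠ v → r u + r v ≤ dist (x u) (x v)) ∧
    (∀ u v, H.Adj u v → dist (x u) (x v) = r u + r v)

section Walk

variable {W : Type} (H : SimpleGraph W) (hfin : ∀ v, (H.neighborSet v).Finite)

include hfin in
lemma step_eq (f : W → ℝ) (v : W) (hne : H.neighborSet v ≠ ∅) :
    step H f v = (∑ w ∈ (hfin v).toFinset, f w) / ((hfin v).toFinset.card : ℝ) := by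
  unfold step
  rw [if_neg hne, finsum_mem_eq_finite_toFinset_sum _ (hfin v),
    Set.ncard_eq_toFinset_card _ (hfin v)]

lemma step_isolated (f : W → ℝ) (v : W) (he : H.neighborSet v = ∅) : step H f v = f v := by
  unfold step
  rw [if_pos he]

include hfin in
lemma card_pos' (v : W) (hne : H.neighborSet v ≠ ∅) : 0 < (((hfin v).toFinset.card : ℕ) : ℝ) := by
  have : (hfin v).toFinset.Nonempty := by
    rw [Set.Finite.toFinset_nonempty]
    exact Set.nonempty_iff_ne_empty.2 hne
  exact_mod_cast this.card_pos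

include hfin in
lemma step_mono (f g : W → ℝ) (h : ∀ w, f w ≤ g w) (v : W) : step H f v ≤ step H g v := by
  by_cases hne : H.neighborSet v = ∅
  · rw [step_isolated H f v hne, step_isolated H g v hne]; exact h v
  · rw [step_eq H hfin f v hne, step_eq H hfin g v hne]
    exact div_le_div_of_nonneg_right (Finset.sum_le_sum fun w _ => h w)
      (card_pos' H hfin v hne).le

include hfin in
lemma step_const (a : ℝ) (v : W) : step H (fun _ => a) v = a := by
  by_cases hne : H.neighborSet v = ∅
  · rw [step_isolated H _ v hne]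
  · rw [step_eq H hfin _ v hne, Finset.sum_const, nsmul_eq_mul,
      mul_div_cancel_left₀ _ (card_pos' H hfin v hne).ne']

include hfin in
lemma visit_nonneg (o : W) (n : ℕ) : ∀ v, 0 ≤ visit H o n v := by
  induction n with
  | zero => intro v; exact le_rfl
  | succ n ih =>
    intro v
    rw [visit]
    rw [← step_const H hfin 0 v]
    apply step_mono H hfin
    intro w
    split_ifs
    · exact zero_le_one
    · exact ih w

include hfin in
lemma visit_le_one (o : W) (n : ℕ) : ∀ v, visit H o n v ≤ 1 := by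
  induction n with
  | zero => intro v; rw [visit]; exact zero_le_one
  | succ n ih =>
    intro v
    rw [visit]
    refine (step_mono H hfin _ (fun _ => 1) (fun w => ?_) v).trans (step_const H hfin 1 v).le
    split_ifs
    · exact le_rfl
    · exact ih w

include hfin in
lemma visit_mono (o : W) (n : ℕ) : ∀ v, visit H o n v ≤ visit H o (n + 1) v := by
  induction n with
  | zero => intro v; exact visit_nonneg H hfin o 1 v
  | succ n ih =>
    intro v
    rw [visit, visit]
    apply step_mono H hfin
    intro w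
    split_ifs
    · exact le_rfl
    · exact ih w

/-- the probability of ever visiting `o` at a positive time -/
noncomputable def lim (o v : W) : ℝ := ⨆ n, visit H o n v

include hfin in
lemma visit_tendsto (o v : W) :
    Filter.Tendsto (fun n => visit H o n v) Filter.atTop (nhds (lim H o v)) :=
  tendsto_atTop_ciSup (monotone_nat_of_le_succ fun n => visit_mono H hfin o n v)
    ⟨1, by rintro _ ⟨n, rfl⟩; exact visit_le_one H hfin o n v⟩

open Classical in
/-- the hitting probability of `o` -/
noncomputable def hit (o v : W) : ℝ := if v = o then 1 else lim H o v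

include hfin in
lemma step_tendsto (F : ℕ → W → ℝ) (g : W → ℝ)
    (h : ∀ w, Filter.Tendsto (fun n => F n w) Filter.atTop (nhds (g w))) (v : W) :
    Filter.Tendsto (fun n => step H (F n) v) Filter.atTop (nhds (step H g v)) := by
  by_cases hne : H.neighborSet v = ∅
  · simp_rw [step_isolated H _ v hne]; exact h v
  · simp_rw [step_eq H hfin _ v hne]
    exact (tendsto_finsetSum _ fun w _ => h w).div_const _

include hfin in
lemma step_hit (o v : W) : step H (hit H o) v = lim H o v := by
  have h1 : Filter.Tendsto (fun n => visit H o (n + 1) v) Filter.atTop (nhds (lim H o v)) :=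
    (Filter.tendsto_add_atTop_iff_nat 1).2 (visit_tendsto H hfin o v)
  have h2 : Filter.Tendsto (fun n => visit H o (n + 1) v) Filter.atTop
      (nhds (step H (hit H o) v)) := by
    simp_rw [visit]
    apply step_tendsto H hfin
    intro w
    unfold hit
    split_ifs
    · exact tendsto_const_nhds
    · exact visit_tendsto H hfin o w
  exact tendsto_nhds_unique h2 h1

include hfin in
lemma lim_nonneg (o v : W) : 0 ≤ lim H o v :=
  ge_of_tendsto' (visit_tendsto H hfin o v) fun n => visit_nonneg H hfin o n v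

include hfin in
lemma hit_nonneg (o v : W) : 0 ≤ hit H o v := by
  unfold hit
  split_ifs
  · exact zero_le_one
  · exact lim_nonneg H hfin o v

include hfin in
lemma hit_pos_step (o v w : W) (hvw : H.Adj v w) (hw : 0 < hit H o w) : 0 < hit H o v := by
  by_cases hvo : v = o
  · unfold hit
    rw [if_pos hvo]; exact one_pos
  · have hne : H.neighborSet v ≠ ∅ := fun h => by
      have : w ∈ H.neighborSet v := hvw
      rw [h] at this; exact this
    have : hit H o v = lim H o v := by unfold hit; rw [if_neg hvo]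
    rw [this, ← step_hit H hfin, step_eq H hfin _ v hne]
    apply div_pos _ (card_pos' H hfin v hne)
    apply Finset.sum_pos' (fun i _ => hit_nonneg H hfin o i)
    exact ⟨w, by rw [Set.Finite.mem_toFinset]; exact hvw, hw⟩

include hfin in
lemma hit_pos (hc : H.Connected) (o v : W) : 0 < hit H o v := by
  obtain ⟨p⟩ := hc.preconnected v o
  induction p with
  | nil => unfold hit; rw [if_pos rfl]; exact one_pos
  | cons hadj p ih => exact hit_pos_step H hfin _ _ _ hadj ih

include hfin in
lemma lap (h : W → ℝ) (T : Finset W) (u : W) (hT : ∀ v, H.Adj u v → v ∈ T) [DecidableRel H.Adj] :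
    ∑ v ∈ T, (if H.Adj u v then h u - h v else 0)
      = ((hfin u).toFinset.card : ℝ) * (h u - step H h u) := by
  rw [← Finset.sum_filter]
  have he : T.filter (fun v => H.Adj u v) = (hfin u).toFinset := by
    ext v
    rw [Finset.mem_filter, Set.Finite.mem_toFinset]
    exact ⟨fun h => h.2, fun h => ⟨hT v h, h⟩⟩
  rw [he]
  by_cases hne : H.neighborSet u = ∅
  · have : (hfin u).toFinset = ∅ := by
      rw [Set.Finite.toFinset_eq_empty]; exact hne
    rw [this]; simp
  · rw [step_eq H hfin _ u hne, Finset.sum_sub_distrib, Finset.sum_const, nsmul_eq_mul, mul_sub,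
      mul_div_cancel₀ _ (card_pos' H hfin u hne).ne']

include hfin in
lemma picone (h : W → ℝ) (hpos : ∀ v, 0 < h v) (o : W) (hsup : ∀ v, v ≠ o → step H h v = h v)
    (f : W → ℝ) (hf : (Function.support f).Finite) (hfo : f o = 1) :
    ∃ s : Finset (W × W), (∀ p ∈ s, H.Adj p.1 p.2) ∧
      2 * (((hfin o).toFinset.card : ℝ) * (h o - step H h o) / h o)
        ≤ ∑ p ∈ s, (f p.1 - f p.2) ^ 2 := by
  classical
  set T : Finset W := hf.toFinset ∪ hf.toFinset.biUnion (fun u => (hfin u).toFinset) with hT
  have hTs : ∀ u, f u ≠ 0 → u ∈ T := fun u hu => by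
    rw [hT, Finset.mem_union]; left; rw [Set.Finite.mem_toFinset]; exact hu
  have hTn : ∀ u, f u ≠ 0 → ∀ v, H.Adj u v → v ∈ T := fun u hu v huv => by
    rw [hT, Finset.mem_union]; right
    rw [Finset.mem_biUnion]
    exact ⟨u, by rw [Set.Finite.mem_toFinset]; exact hu, by
      rw [Set.Finite.mem_toFinset]; exact huv⟩
  refine ⟨(T ×ˢ T).filter (fun p => H.Adj p.1 p.2), fun p hp => (Finset.mem_filter.1 hp).2, ?_⟩
  rw [Finset.sum_filter, Finset.sum_product]
  set a : W → ℝ := fun u => f u ^ 2 / h u with ha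
  have h1 : ∀ u v : W, (if H.Adj u v then (h u - h v) * (a u - a v) else 0)
      ≤ (if H.Adj u v then (f u - f v) ^ 2 else 0) := by
    intro u v
    split_ifs
    · have e : (f u - f v) ^ 2 - (h u - h v) * (a u - a v)
          = (h v * f u - h u * f v) ^ 2 / (h u * h v) := by
        have hu := (hpos u).ne'
        have hv := (hpos v).ne'
        simp only [ha]
        field_simp
        ring
      have : 0 ≤ (h v * f u - h u * f v) ^ 2 / (h u * h v) :=
        div_nonneg (sq_nonneg _) (mul_pos (hpos u) (hpos v)).le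
      linarith
    · exact le_rfl
  refine le_trans ?_ (Finset.sum_le_sum fun u _ => Finset.sum_le_sum fun v _ => h1 u v)
  have h2 : ∑ u ∈ T, ∑ v ∈ T, (if H.Adj u v then (h u - h v) * (a u - a v) else 0)
      = 2 * ∑ u ∈ T, a u * ∑ v ∈ T, (if H.Adj u v then h u - h v else 0) := by
    have e1 : ∀ u v : W, (if H.Adj u v then (h u - h v) * (a u - a v) else 0)
        = a u * (if H.Adj u v then h u - h v else 0)
          + a v * (if H.Adj v u then h v - h u else 0) := by
      intro u v
      by_cases huv : H.Adj u v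
      · rw [if_pos huv, if_pos huv, if_pos huv.symm]; ring
      · rw [if_neg huv, if_neg huv, if_neg (fun h => huv h.symm)]; ring
    simp_rw [e1, Finset.sum_add_distrib]
    rw [Finset.sum_comm (f := fun u v => a v * (if H.Adj v u then h v - h u else 0))]
    simp_rw [← Finset.mul_sum]
    ring
  rw [h2]
  have hoT : o ∈ T := hTs o (by rw [hfo]; exact one_ne_zero)
  have h3 : ∑ u ∈ T, a u * ∑ v ∈ T, (if H.Adj u v then h u - h v else 0)
      = ((hfin o).toFinset.card : ℝ) * (h o - step H h o) / h o := by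
    rw [Finset.sum_eq_single_of_mem o hoT]
    · rw [lap H hfin h T o (hTn o (by rw [hfo]; exact one_ne_zero))]
      simp only [ha, hfo]
      ring
    · intro u _ huo
      by_cases hu : f u = 0
      · simp [ha, hu]
      · rw [lap H hfin h T u (hTn u hu), hsup u huo, sub_self, mul_zero, mul_zero]
  rw [h3]

include hfin in
/-- a connected transient graph has positive capacity -/
lemma capacity (hc : H.Connected) (ht : Transient H) : ∃ o : W, ∃ c : ℝ, 0 < c ∧
    ∀ f : W → ℝ, (Function.support f).Finite → f o = 1 →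
      ∃ s : Finset (W × W), (∀ p ∈ s, H.Adj p.1 p.2) ∧ c ≤ ∑ p ∈ s, (f p.1 - f p.2) ^ 2 := by
  obtain ⟨o, c, hc1, hv⟩ := ht
  have hne : H.neighborSet o ≠ ∅ := by
    intro he
    have := hv 1
    rw [visit, step_isolated H _ o he, if_pos rfl] at this
    linarith
  have hl : lim H o o ≤ c := le_of_tendsto' (visit_tendsto H hfin o o) hv
  have hcard := card_pos' H hfin o hne
  refine ⟨o, 2 * (((hfin o).toFinset.card : ℝ) * (1 - c)), by
    have : 0 < 1 - c := by linarith
    positivity, fun f hf hfo => ?_⟩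
  obtain ⟨s, hs, hle⟩ := picone H hfin (hit H o) (hit_pos H hfin hc o) o (fun v hvo => by
    rw [step_hit H hfin]; unfold hit; rw [if_neg hvo]) f hf hfo
  refine ⟨s, hs, le_trans ?_ hle⟩
  have ho : hit H o o = 1 := by unfold hit; rw [if_pos rfl]
  rw [step_hit H hfin, ho, div_one]
  have : ((hfin o).toFinset.card : ℝ) * (1 - c) ≤ ((hfin o).toFinset.card : ℝ) * (1 - lim H o o) :=
    mul_le_mul_of_nonneg_left (by linarith) hcard.le
  linarith

end Walk

section Energy

variable {W : Type}

lemma energy_le (H : SimpleGraph W) (r : W → ℝ) (K : ℕ)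
    (hK : ∀ (u : W) (s : Finset W), (∀ v ∈ s, H.Adj u v ∧ r u ≤ r v) → s.card ≤ K)
    (f h : W → ℝ) (h0 : ∀ u, 0 ≤ h u)
    (hh : ∀ u v, H.Adj u v → (f u - f v) ^ 2 ≤ h u) (B : ℝ)
    (hB : ∀ T : Finset W, ∑ u ∈ T, h u ≤ B) (s : Finset (W × W)) (hs : ∀ p ∈ s, H.Adj p.1 p.2) :
    ∑ p ∈ s, (f p.1 - f p.2) ^ 2 ≤ 2 * (K : ℝ) * B := by
  classical
  have hB0 : 0 ≤ B := by simpa using hB ∅
  let φ : W × W → W := fun p => if r p.1 ≤ r p.2 then p.1 else p.2
  have h1 : ∑ p ∈ s, (f p.1 - f p.2) ^ 2 ≤ ∑ p ∈ s, h (φ p) := by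
    apply Finset.sum_le_sum
    intro p hp'
    by_cases hp : r p.1 ≤ r p.2
    · have : φ p = p.1 := if_pos hp
      rw [this]; exact hh _ _ (hs p hp')
    · have : φ p = p.2 := if_neg hp
      rw [this, show (f p.1 - f p.2) ^ 2 = (f p.2 - f p.1) ^ 2 by ring]
      exact hh _ _ (hs p hp').symm
  refine h1.trans ?_
  rw [Finset.sum_comp h φ]
  have h2 : ∀ b ∈ s.image φ, (s.filter fun a => φ a = b).card • h b ≤ 2 * (K : ℝ) * h b := by
    intro b _
    rw [nsmul_eq_mul]
    apply mul_le_mul_of_nonneg_right _ (h0 b)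
    have hc1 : ((s.filter fun a => r a.1 ≤ r a.2 ∧ a.1 = b).image fun a => a.2).card ≤ K := by
      apply hK b
      intro v hv
      obtain ⟨a, ha, rfl⟩ := Finset.mem_image.1 hv
      obtain ⟨has, ha1, ha2⟩ := Finset.mem_filter.1 ha
      rw [← ha2]
      exact ⟨hs a has, ha1⟩
    have hc2 : ((s.filter fun a => r a.2 ≤ r a.1 ∧ a.2 = b).image fun a => a.1).card ≤ K := by
      apply hK b
      intro v hv
      obtain ⟨a, ha, rfl⟩ := Finset.mem_image.1 hv
      obtain ⟨has, ha1, ha2⟩ := Finset.mem_filter.1 ha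
      rw [← ha2]
      exact ⟨(hs a has).symm, ha1⟩
    rw [Finset.card_image_of_injOn] at hc1
    · rw [Finset.card_image_of_injOn] at hc2
      · have hsub : (s.filter fun a => φ a = b) ⊆
            (s.filter fun a => r a.1 ≤ r a.2 ∧ a.1 = b) ∪
            (s.filter fun a => r a.2 ≤ r a.1 ∧ a.2 = b) := by
          intro a ha
          obtain ⟨has, hab⟩ := Finset.mem_filter.1 ha
          rw [Finset.mem_union, Finset.mem_filter, Finset.mem_filter]
          by_cases hp : r a.1 ≤ r a.2
          · left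
            have : φ a = a.1 := if_pos hp
            exact ⟨has, hp, by rw [← this, hab]⟩
          · right
            have : φ a = a.2 := if_neg hp
            exact ⟨has, (not_le.1 hp).le, by rw [← this, hab]⟩
        have hcard := (Finset.card_le_card hsub).trans (Finset.card_union_le _ _)
        have : (s.filter fun a => φ a = b).card ≤ 2 * K := by omega
        exact_mod_cast this
      · intro a ha c hc hac
        obtain ⟨_, _, ha2⟩ := Finset.mem_filter.1 (Finset.mem_coe.1 ha)
        obtain ⟨_, _, hc2⟩ := Finset.mem_filter.1 (Finset.mem_coe.1 hc)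
        apply Prod.ext
        · exact hac
        · rw [ha2, hc2]
    · intro a ha c hc hac
      obtain ⟨_, _, ha2⟩ := Finset.mem_filter.1 (Finset.mem_coe.1 ha)
      obtain ⟨_, _, hc2⟩ := Finset.mem_filter.1 (Finset.mem_coe.1 hc)
      apply Prod.ext
      · rw [ha2, hc2]
      · exact hac
  calc ∑ b ∈ s.image φ, (s.filter fun a => φ a = b).card • h b
      ≤ ∑ b ∈ s.image φ, 2 * (K : ℝ) * h b := Finset.sum_le_sum h2
    _ = 2 * (K : ℝ) * ∑ b ∈ s.image φ, h b := by rw [Finset.mul_sum]
    _ ≤ 2 * (K : ℝ) * B := mul_le_mul_of_nonneg_left (hB _) (by positivity)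

end Energy

lemma kiss {d : ℕ} {W : Type} (x : W → EuclideanSpace ℝ (Fin d)) (r : W → ℝ) (hr : ∀ v, 0 < r v)
    (hd : ∀ u v, u ≠ v → r u + r v ≤ dist (x u) (x v)) (u : W) (s : Finset W)
    (hs : ∀ v ∈ s, dist (x u) (x v) = r u + r v ∧ r u ≤ r v) : s.card ≤ 5 ^ d := by
  classical
  set e : W → EuclideanSpace ℝ (Fin d) := fun v => (r u + r v)⁻¹ • (x v - x u) with he
  have hnorm : ∀ v ∈ s, ‖x v - x u‖ = r u + r v := fun v hv => by
    rw [← dist_eq_norm, dist_comm]; exact (hs v hv).1
  have hpos : ∀ v, 0 < r u + r v := fun v => add_pos (hr u) (hr v)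
  have hen : ∀ v ∈ s, ‖e v‖ = 1 := fun v hv => by
    rw [he]
    simp only
    rw [norm_smul, hnorm v hv, norm_inv, Real.norm_of_nonneg (hpos v).le,
      inv_mul_cancel₀ (hpos v).ne']
  have hsep : ∀ v ∈ s, ∀ w ∈ s, v ≠ w → 1 ≤ ‖e v - e w‖ := by
    intro v hv w hw hvw
    have h1 : ‖(x v - x u) - (x w - x u)‖ ^ 2
        = ‖x v - x u‖ ^ 2 - 2 * inner ℝ (x v - x u) (x w - x u) + ‖x w - x u‖ ^ 2 :=
      norm_sub_sq_real _ _
    have h2 : r v + r w ≤ ‖(x v - x u) - (x w - x u)‖ := by
      rw [sub_sub_sub_cancel_right, ← dist_eq_norm]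
      exact hd v w hvw
    have h3 : (r v + r w) ^ 2 ≤ ‖(x v - x u) - (x w - x u)‖ ^ 2 :=
      pow_le_pow_left₀ (add_pos (hr v) (hr w)).le h2 2
    rw [h1, hnorm v hv, hnorm w hw] at h3
    have h4 : ‖e v - e w‖ ^ 2 = ‖e v‖ ^ 2 - 2 * inner ℝ (e v) (e w) + ‖e w‖ ^ 2 :=
      norm_sub_sq_real _ _
    have h5 : inner ℝ (e v) (e w)
        = (r u + r v)⁻¹ * ((r u + r w)⁻¹ * inner ℝ (x v - x u) (x w - x u)) := by
      rw [he]
      simp only
      rw [real_inner_smul_left, real_inner_smul_right]
    have hv2 := (hs v hv).2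
    have hw2 := (hs w hw).2
    have hru := hr u
    have h6 : 2 * inner ℝ (x v - x u) (x w - x u) ≤ (r u + r v) * (r u + r w) := by
      nlinarith [mul_nonneg (sub_nonneg.2 hv2) (sub_nonneg.2 hw2),
        mul_nonneg hru.le (sub_nonneg.2 hv2), mul_nonneg hru.le (sub_nonneg.2 hw2)]
    have h7 : 2 * inner ℝ (e v) (e w) ≤ 1 := by
      rw [h5]
      have h8 : 0 < (r u + r v) * (r u + r w) := mul_pos (hpos v) (hpos w)
      calc 2 * ((r u + r v)⁻¹ * ((r u + r w)⁻¹ * inner ℝ (x v - x u) (x w - x u)))
          = (2 * inner ℝ (x v - x u) (x w - x u)) * ((r u + r v) * (r u + r w))⁻¹ := by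
            rw [mul_inv]; ring
        _ ≤ ((r u + r v) * (r u + r w)) * ((r u + r v) * (r u + r w))⁻¹ :=
            mul_le_mul_of_nonneg_right h6 (inv_nonneg.2 h8.le)
        _ = 1 := mul_inv_cancel₀ h8.ne'
    have h9 : (1 : ℝ) ^ 2 ≤ ‖e v - e w‖ ^ 2 := by
      rw [h4, hen v hv, hen w hw]; linarith
    exact le_of_sq_le_sq h9 (norm_nonneg _)
  have hinj : Set.InjOn e s := by
    intro v hv w hw hvw
    by_contra hne
    have := hsep v hv w hw hne
    rw [hvw, sub_self, norm_zero] at this
    linarith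
  have hcard := Besicovitch.card_le_of_separated (s.image e)
    (fun c hc => by
      obtain ⟨v, hv, rfl⟩ := Finset.mem_image.1 hc
      rw [hen v hv]; norm_num)
    (fun c hc d hd' hcd => by
      obtain ⟨v, hv, rfl⟩ := Finset.mem_image.1 hc
      obtain ⟨w, hw, rfl⟩ := Finset.mem_image.1 hd'
      exact hsep v hv w hw (fun h => hcd (by rw [h])))
  rw [Finset.card_image_of_injOn hinj, finrank_euclideanSpace_fin] at hcard
  exact hcard

/-- layer `n` has `n + 1` vertices -/
abbrev V := Σ n : ℕ, Fin (n + 1)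

/-- consecutive layers are completely joined -/
def G : SimpleGraph V where
  Adj u v := u.1 + 1 = v.1 ∨ v.1 + 1 = u.1
  symm := ⟨fun u v h => h.symm⟩
  loopless := ⟨fun u h => by rcases h with h | h <;> omega⟩

lemma G_adj (u v : V) : G.Adj u v ↔ (u.1 + 1 = v.1 ∨ v.1 + 1 = u.1) := Iff.rfl

lemma finite_level (N : ℕ) : {v : V | v.1 < N}.Finite := by
  have h : {v : V | v.1 < N} = ↑((Finset.range N).sigma fun n => (Finset.univ : Finset (Fin (n + 1)))) := by
    ext v; simp
  rw [h]; exact Finset.finite_toSet _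

lemma G_connected : G.Connected := by
  have h : ∀ n (i : Fin (n + 1)), G.Reachable ⟨0, 0⟩ ⟨n, i⟩ := by
    intro n
    induction n with
    | zero =>
      intro i
      have : i = 0 := by apply Fin.ext; omega
      subst this
      exact SimpleGraph.Reachable.refl _
    | succ n ih =>
      intro i
      refine (ih 0).trans (SimpleGraph.Adj.reachable ?_)
      rw [G_adj]; left; rfl
  exact
    { preconnected := fun u v => ((h u.1 u.2).symm).trans (h v.1 v.2)
      nonempty := ⟨⟨0, 0⟩⟩ }

lemma G_locfin (v : V) : (G.neighborSet v).Finite := by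
  apply (finite_level (v.1 + 2)).subset
  intro u hu
  have h : G.Adj v u := hu
  rw [G_adj] at h
  show u.1 < v.1 + 2
  omega

/-- truncated harmonic sum -/
noncomputable def S (n0 N : ℕ) : ℝ := ∑ k ∈ Finset.Ico n0 N, 1 / ((k : ℝ) + 1)

/-- radial test function -/
noncomputable def g (n0 N n : ℕ) : ℝ :=
  (∑ k ∈ Finset.Ico n0 N, if n ≤ k then 1 / ((k : ℝ) + 1) else 0) / S n0 N

lemma g_start (n0 N : ℕ) (hS : 0 < S n0 N) : g n0 N n0 = 1 := by
  unfold g
  rw [div_eq_one_iff_eq hS.ne']
  unfold S
  apply Finset.sum_congr rfl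
  intro k hk
  rw [if_pos (Finset.mem_Ico.1 hk).1]

lemma g_end (n0 N n : ℕ) (h : N ≤ n) : g n0 N n = 0 := by
  unfold g
  rw [Finset.sum_eq_zero, zero_div]
  intro k hk
  have := (Finset.mem_Ico.1 hk).2
  rw [if_neg (by omega)]

lemma g_diff (n0 N n : ℕ) (hS : 0 < S n0 N) :
    (g n0 N n - g n0 N (n + 1)) ^ 2 ≤ if n < N then (1 / (((n : ℝ) + 1) * S n0 N)) ^ 2 else 0 := by
  have h1 : g n0 N n - g n0 N (n + 1)
      = (∑ k ∈ Finset.Ico n0 N, if k = n then 1 / ((k : ℝ) + 1) else 0) / S n0 N := by
    unfold g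
    rw [← sub_div, ← Finset.sum_sub_distrib]
    congr 1
    apply Finset.sum_congr rfl
    intro k _
    by_cases h : k = n
    · subst h; simp
    · by_cases h2 : n ≤ k
      · rw [if_pos h2, if_pos (by omega), if_neg h, sub_self]
      · rw [if_neg h2, if_neg (by omega), if_neg h, sub_self]
  rw [h1, Finset.sum_ite_eq']
  by_cases hn : n < N
  · rw [if_pos hn]
    apply pow_le_pow_left₀
    · split_ifs
      · positivity
      · simp
    · split_ifs
      · rw [div_div]
      · rw [zero_div]; positivity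
  · rw [if_neg hn, if_neg (by simp; omega)]
    simp

lemma S_tendsto (n0 : ℕ) (M : ℝ) : ∃ N, n0 < N ∧ M < S n0 N := by
  have h := Real.tendsto_sum_range_one_div_nat_succ_atTop
  obtain ⟨N, hN⟩ := Filter.tendsto_atTop.1 h (M + 1 + ∑ i ∈ Finset.range n0, (1 / ((i : ℝ) + 1))) |>.exists_forall_of_atTop
  refine ⟨max N (n0 + 1), by omega, ?_⟩
  have h1 := hN (max N (n0 + 1)) (le_max_left _ _)
  unfold S
  rw [Finset.sum_Ico_eq_sub _ (by omega)]
  linarith


lemma small_energy (H : G.Subgraph) (r : H.verts → ℝ) (K : ℕ)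
    (hK : ∀ (u : H.verts) (s : Finset H.verts), (∀ v ∈ s, H.coe.Adj u v ∧ r u ≤ r v) → s.card ≤ K)
    (o : H.verts) (c : ℝ) (hc : 0 < c) :
    ∃ f : H.verts → ℝ, (Function.support f).Finite ∧ f o = 1 ∧
      ∀ s : Finset (H.verts × H.verts), (∀ p ∈ s, H.coe.Adj p.1 p.2) →
        ∑ p ∈ s, (f p.1 - f p.2) ^ 2 < c := by
  set n0 := o.1.1 with hn0
  set C : ℝ := ∑ i ∈ Finset.range n0, (1 / ((i : ℝ) + 1)) + 1 with hC
  obtain ⟨N, hN, hSN⟩ := S_tendsto n0 (max C (16 * ((K : ℝ) + 1) / c))
  set s := S n0 N with hs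
  have hC0 : 0 ≤ C := by
    rw [hC]
    have : 0 ≤ ∑ i ∈ Finset.range n0, (1 / ((i : ℝ) + 1)) :=
      Finset.sum_nonneg fun _ _ => by positivity
    linarith
  have hsC : C < s := lt_of_le_of_lt (le_max_left _ _) hSN
  have hsc : 16 * ((K : ℝ) + 1) / c < s := lt_of_le_of_lt (le_max_right _ _) hSN
  have hs0 : 0 < s := lt_of_le_of_lt hC0 hsC
  let f : H.verts → ℝ := fun w => g n0 N w.1.1
  have hfs : (Function.support f).Finite := by
    have : ({w : H.verts | w.1.1 < N}).Finite :=
      Set.Finite.preimage (Set.injOn_of_injective Subtype.val_injective) (finite_level N)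
    apply this.subset
    intro w hw
    by_contra hcon
    apply hw
    exact g_end n0 N _ (not_lt.1 hcon)
  have hfo : f o = 1 := g_start n0 N hs0
  refine ⟨f, hfs, hfo, fun t ht => ?_⟩
  let h' : ℕ → ℝ := fun n => if n ≤ N then 4 / (((n : ℝ) + 1) ^ 2 * s ^ 2) else 0
  have h'0 : ∀ n, 0 ≤ h' n := fun n => by
    simp only [h']
    split_ifs
    · positivity
    · exact le_rfl
  have hh : ∀ u v : H.verts, H.coe.Adj u v → (f u - f v) ^ 2 ≤ h' u.1.1 := by
    intro u v huv
    have hadj : G.Adj u.1 v.1 := H.adj_sub huv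
    rw [G_adj] at hadj
    rcases hadj with h | h
    · have h1 := g_diff n0 N u.1.1 hs0
      simp only [f, h', ← h]
      refine h1.trans ?_
      by_cases hlt : u.1.1 < N
      · rw [if_pos hlt, if_pos hlt.le, div_pow, one_pow, mul_pow]
        gcongr
        norm_num
      · rw [if_neg hlt]
        exact h'0 _
    · have h1 := g_diff n0 N v.1.1 hs0
      have h2 : (f u - f v) ^ 2 = (g n0 N v.1.1 - g n0 N (v.1.1 + 1)) ^ 2 := by
        simp only [f, ← h]; ring
      rw [h2]
      refine h1.trans ?_
      simp only [h', ← h]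
      by_cases hlt : v.1.1 < N
      · rw [if_pos hlt, if_pos (by omega : v.1.1 + 1 ≤ N), div_pow, one_pow, mul_pow]
        push_cast
        have hv0 : (0 : ℝ) ≤ (v.1.1 : ℝ) := Nat.cast_nonneg _
        have hs2 : 0 < s ^ 2 := by positivity
        rw [div_le_div_iff₀ (by positivity) (by positivity)]
        have : ((v.1.1 : ℝ) + 1 + 1) ^ 2 ≤ 4 * ((v.1.1 : ℝ) + 1) ^ 2 := by nlinarith
        nlinarith
      · rw [if_neg hlt]
        exact h'0 _
  have hB : ∀ T : Finset H.verts, ∑ u ∈ T, h' u.1.1
      ≤ 4 / s ^ 2 * ∑ n ∈ Finset.range (N + 1), 1 / ((n : ℝ) + 1) := by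
    intro T
    classical
    have h1 : ∑ u ∈ T, h' u.1.1 = ∑ v ∈ T.map (Function.Embedding.subtype _), h' v.1 := by
      rw [Finset.sum_map]; rfl
    have h2 : ∑ v ∈ T.map (Function.Embedding.subtype _), h' v.1
        = ∑ v ∈ (T.map (Function.Embedding.subtype _)).filter (fun v => v.1 ≤ N), h' v.1 := by
      rw [Finset.sum_filter]
      apply Finset.sum_congr rfl
      intro v _
      by_cases hv : v.1 ≤ N
      · rw [if_pos hv]
      · rw [if_neg hv]; exact if_neg hv
    rw [h1, h2]
    calc _ ≤ ∑ v ∈ ((Finset.range (N + 1)).sigma fun n => (Finset.univ : Finset (Fin (n + 1)))),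
          h' v.1 := by
          apply Finset.sum_le_sum_of_subset_of_nonneg
          · intro v hv
            obtain ⟨_, hv2⟩ := Finset.mem_filter.1 hv
            simp only [Finset.mem_sigma, Finset.mem_range, Finset.mem_univ, and_true]
            omega
          · intro v _ _
            exact h'0 _
      _ = 4 / s ^ 2 * ∑ n ∈ Finset.range (N + 1), 1 / ((n : ℝ) + 1) := by
          rw [Finset.sum_sigma, Finset.mul_sum]
          apply Finset.sum_congr rfl
          intro n hn
          simp only [Finset.sum_const, Finset.card_univ, Fintype.card_fin, nsmul_eq_mul]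
          have hn' : n ≤ N := by have := Finset.mem_range.1 hn; omega
          simp only [h', if_pos hn']
          push_cast
          have : (n : ℝ) + 1 ≠ 0 := by positivity
          field_simp
  have h2 := energy_le H.coe r K hK f (fun w => h' w.1.1) (fun _ => h'0 _) hh _ hB t ht
  have h3 : ∑ n ∈ Finset.range (N + 1), 1 / ((n : ℝ) + 1) ≤ s + C := by
    rw [Finset.sum_range_succ, hs, hC]
    unfold S
    rw [Finset.sum_Ico_eq_sub _ hN.le]
    have : 1 / ((N : ℝ) + 1) ≤ 1 := by
      rw [div_le_one (by positivity)]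
      have : (0 : ℝ) ≤ N := Nat.cast_nonneg _
      linarith
    linarith
  have h4 : ∑ p ∈ t, (f p.1 - f p.2) ^ 2 ≤ 2 * (K : ℝ) * (4 / s ^ 2 * (s + C)) := by
    refine h2.trans ?_
    gcongr
  have h5 : 2 * (K : ℝ) * (4 / s ^ 2 * (s + C)) ≤ 16 * ((K : ℝ) + 1) / s := by
    rw [show 2 * (K : ℝ) * (4 / s ^ 2 * (s + C)) = 8 * (K : ℝ) * (s + C) / s ^ 2 by ring,
      div_le_div_iff₀ (by positivity) hs0]
    have hK0 : (0 : ℝ) ≤ K := Nat.cast_nonneg _
    have e1 : 8 * (K : ℝ) * (s + C) * s ≤ 8 * (K : ℝ) * (s + s) * s := by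
      gcongr
    nlinarith [mul_pos hs0 hs0]
  have h6 : 16 * ((K : ℝ) + 1) / s < c := by
    rw [div_lt_iff₀ hc] at hsc
    rw [div_lt_iff₀ hs0]
    linarith
  linarith

/-- the layers met by the neighbours of a vertex of layer `n` -/
def lay : ℕ → Finset ℕ
  | 0 => {1}
  | m + 1 => {m, m + 2}

lemma nbr_eq (v : V) : G.neighborSet v
    = ↑((lay v.1).sigma fun n => (Finset.univ : Finset (Fin (n + 1)))) := by
  obtain ⟨n, i⟩ := v
  ext ⟨m, j⟩
  rw [SimpleGraph.mem_neighborSet, G_adj]
  cases n with
  | zero => simp [lay]; omega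
  | succ n => simp [lay]; omega

lemma nbr_toFinset (v : V) : (G_locfin v).toFinset
    = (lay v.1).sigma fun n => (Finset.univ : Finset (Fin (n + 1))) := by
  apply Finset.coe_injective
  rw [Set.Finite.coe_toFinset, nbr_eq]

/-- the superharmonic function `1 / (layer + 1)` -/
noncomputable def sup (v : V) : ℝ := 1 / ((v.1 : ℝ) + 1)

lemma sum_sup (n : ℕ) : ∑ w ∈ (lay n).sigma (fun n => (Finset.univ : Finset (Fin (n + 1)))), sup w
    = ((lay n).card : ℝ) := by
  rw [Finset.sum_sigma]
  simp only [sup, Finset.sum_const, Finset.card_univ, Fintype.card_fin, nsmul_eq_mul]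
  rw [Finset.card_eq_sum_ones]
  push_cast
  apply Finset.sum_congr rfl
  intro m _
  field_simp

lemma nbr_ne (v : V) : G.neighborSet v ≠ ∅ := by
  intro h
  have : (⟨v.1 + 1, 0⟩ : V) ∈ G.neighborSet v := by
    rw [SimpleGraph.mem_neighborSet, G_adj]; left; rfl
  rw [h] at this
  exact this

lemma step_sup_zero (i : Fin 1) : step G sup ⟨0, i⟩ = 1 / 2 := by
  rw [step_eq G G_locfin _ _ (nbr_ne _), nbr_toFinset]
  rw [sum_sup]
  simp [lay]

lemma step_sup_succ (m : ℕ) (i : Fin (m + 1 + 1)) : step G sup ⟨m + 1, i⟩ = sup ⟨m + 1, i⟩ := by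
  rw [step_eq G G_locfin _ _ (nbr_ne _), nbr_toFinset]
  rw [sum_sup]
  have h1 : (lay (m + 1)).card = 2 := by
    simp [lay]
  have h2 : ((lay (m + 1)).sigma fun n => (Finset.univ : Finset (Fin (n + 1)))).card
      = 2 * m + 4 := by
    rw [Finset.card_sigma]
    simp [lay]
    ring
  simp only [h1, h2, sup]
  push_cast
  have h3 : (2 : ℝ) * m + 4 ≠ 0 := by positivity
  have h4 : (m : ℝ) + 1 + 1 ≠ 0 := by positivity
  field_simp
  ring

lemma visit_le (n : ℕ) : ∀ v : V, visit G ⟨0, 0⟩ n v ≤ step G sup v := by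
  induction n with
  | zero =>
    intro v
    rw [visit, ← step_const G G_locfin 0 v]
    apply step_mono G G_locfin
    intro w
    unfold sup
    positivity
  | succ n ih =>
    intro v
    rw [visit]
    apply step_mono G G_locfin
    intro w
    split_ifs with hw
    · rw [hw]; simp [sup]
    · refine (ih w).trans ?_
      obtain ⟨m, i⟩ := w
      cases m with
      | zero =>
        exfalso
        apply hw
        have : i = 0 := by apply Fin.ext; omega
        rw [this]
      | succ m => exact (step_sup_succ m i).le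

lemma G_transient : Transient G :=
  ⟨⟨0, 0⟩, 1 / 2, by norm_num, fun n => (visit_le n _).trans (step_sup_zero 0).le⟩

lemma not_transient (H : G.Subgraph) (hc : H.coe.Connected) (d : ℕ) (hp : Packed d H.coe) :
    ¬ Transient H.coe := by
  intro ht
  obtain ⟨x, r, hr, hd, hadj⟩ := hp
  have hfin : ∀ v, (H.coe.neighborSet v).Finite := by
    intro v
    have h1 := G_locfin v.1
    have h2 : (Subtype.val ⁻¹' (G.neighborSet v.1) : Set H.verts).Finite :=
      Set.Finite.preimage (Set.injOn_of_injective Subtype.val_injective) h1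
    exact h2.subset fun w hw => H.adj_sub hw
  obtain ⟨o, c, hc0, hcap⟩ := capacity H.coe hfin hc ht
  obtain ⟨f, hf, hfo, hsmall⟩ := small_energy H r (5 ^ d) (fun u s hs => by
    apply kiss x r hr hd u s
    intro v hv
    exact ⟨hadj u v (hs v hv).1, (hs v hv).2⟩) o c hc0
  obtain ⟨s, hs, hle⟩ := hcap f hf hfo
  have := hsmall s hs
  linarith

/-- There is a countable, connected, locally finite graph `G` which is transient for simple random
walk, such that no connected subgraph of `G` that can be represented by balls with disjoint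
interiors in some Euclidean space (adjacent vertices having tangent balls) is transient. -/
theorem result : ∃ (V : Type) (_ : Countable V) (G : SimpleGraph V),
    G.Connected ∧ (∀ v, (G.neighborSet v).Finite) ∧ Transient G ∧
    ∀ H : G.Subgraph, H.coe.Connected → (∃ d : ℕ, Packed d H.coe) → ¬ Transient H.coe :=
  ⟨V, inferInstance, G, G_connected, G_locfin, G_transient,
    fun H hc ⟨d, hp⟩ => not_transient H hc d hp⟩

end Pool.Agent.Results.MP_65c29d_pr.AllDimensions
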